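import Pool.Agent.Lib.MP_cdd7b4_an.MX.H96.Phi

/-!
Module FINC (helper96): selection of the columns.
-/

set_option autoImplicit false

namespace Pool.Agent.Lib.MP_cdd7b4_an.MX.H96

open Pool.Agent.Lib.MP_cdd7b4_an.H80 (av av_add av_sub av_const_mul av_const av_mono av_nonneg
  av_equiv av_inv av_sum)
open scoped BigOperators

section norms

lemma lpn_nonneg {ι : Type*} [Fintype ι] (p : ℝ) (a : ι → ℝ) : 0 ≤ lpn p a := by
  simp only [lpn]; positivity

lemma lpn_smul {ι : Type*} [Fintype ι] {p : ℝ} (hp : 0 < p) (a : ι → ℝ) {c : ℝ} (hc : 0 ≤ c) :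
    lpn p (fun i => c * a i) = c * lpn p a := by
  simp only [lpn, abs_mul, abs_of_nonneg hc]
  have h : ∀ i, (c * |a i|) ^ p = c ^ p * |a i| ^ p := fun i => Real.mul_rpow hc (abs_nonneg _)
  simp only [h]
  rw [← Finset.mul_sum, Real.mul_rpow (by positivity) (by positivity), ← Real.rpow_mul hc,
    mul_one_div, div_self hp.ne', Real.rpow_one]

lemma le_lpn {ι : Type*} [Fintype ι] {p : ℝ} (hp : 0 < p) (a : ι → ℝ) (i : ι) :
    |a i| ≤ lpn p a := by
  simp only [lpn]
  have h1 : |a i| ^ p ≤ ∑ i, |a i| ^ p :=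
    Finset.single_le_sum (f := fun i => |a i| ^ p) (fun i _ => by positivity) (Finset.mem_univ i)
  calc |a i| = (|a i| ^ p) ^ (1 / p) := by
        rw [← Real.rpow_mul (abs_nonneg _), mul_one_div, div_self hp.ne', Real.rpow_one]
    _ ≤ _ := Real.rpow_le_rpow (by positivity) h1 (by positivity)

lemma lpn_single {ι : Type*} [Fintype ι] [DecidableEq ι] {p : ℝ} (hp : 0 < p) (i : ι) {c : ℝ}
    (hc : 0 ≤ c) : lpn p (fun j => if j = i then c else 0) = c := by
  simp only [lpn]
  have h : ∀ j, |(if j = i then c else (0 : ℝ))| ^ p = if j = i then c ^ p else 0 := by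
    intro j
    split_ifs
    · rw [abs_of_nonneg hc]
    · rw [abs_zero, Real.zero_rpow hp.ne']
  simp only [h]
  rw [Finset.sum_ite_eq' Finset.univ i (fun _ => c ^ p)]
  simp only [Finset.mem_univ, if_true]
  rw [← Real.rpow_mul hc, mul_one_div, div_self hp.ne', Real.rpow_one]

variable {m : ℕ}

lemma nr_nonneg {r : ℝ} (w : Fin m → ℝ) : 0 ≤ nr r w := by
  simp only [nr]
  split_ifs
  · exact Real.iSup_nonneg fun j => abs_nonneg _
  · exact lpn_nonneg _ _

lemma nr_smul {r : ℝ} (hr : 0 ≤ r) (w : Fin m → ℝ) {c : ℝ} (hc : 0 ≤ c) :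
    nr r (fun j => c * w j) = c * nr r w := by
  simp only [nr]
  split_ifs with h
  · rw [Real.mul_iSup_of_nonneg hc]
    simp only [abs_mul, abs_of_nonneg hc]
  · exact lpn_smul (by have := lt_of_le_of_ne hr (Ne.symm h); positivity) w hc

lemma le_nr {r : ℝ} (hr : 0 ≤ r) (w : Fin m → ℝ) (j : Fin m) : |w j| ≤ nr r w := by
  simp only [nr]
  split_ifs with h
  · exact le_ciSup (f := fun j => |w j|) (Set.finite_range _).bddAbove j
  · exact le_lpn (by have := lt_of_le_of_ne hr (Ne.symm h); positivity) w j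

lemma nr_single {r : ℝ} (hr : 0 ≤ r) (i : Fin m) :
    nr r (fun j => if j = i then (1 : ℝ) else 0) = 1 := by
  simp only [nr]
  split_ifs with h
  · apply le_antisymm
    · haveI : Nonempty (Fin m) := ⟨i⟩
      apply ciSup_le
      intro j
      split_ifs <;> simp
    · have := le_ciSup (f := fun j => |if j = i then (1 : ℝ) else 0|)
        (Set.finite_range _).bddAbove i
      simpa using this
  · exact lpn_single (by have := lt_of_le_of_ne hr (Ne.symm h); positivity) i zero_le_one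

end norms

/-- The double norm. -/
noncomputable def dn {𝕜 : Type*} [RCLike 𝕜] {m : ℕ} (r p : ℝ) (a : Fin m → Fin m → 𝕜) : ℝ :=
  nr r (fun j => lpn p (fun l => ‖a j l‖))

section dn

variable {𝕜 : Type*} [RCLike 𝕜] {m : ℕ} {r p : ℝ}

lemma dn_nonneg (a : Fin m → Fin m → 𝕜) : 0 ≤ dn r p a := nr_nonneg _

lemma dn_smul (hr : 0 ≤ r) (hp : 0 < p) (c : 𝕜) (a : Fin m → Fin m → 𝕜) :
    dn r p (fun j l => c * a j l) = ‖c‖ * dn r p a := by
  simp only [dn, norm_mul]
  rw [← nr_smul hr _ (norm_nonneg c)]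
  congr 1
  funext j
  exact lpn_smul hp _ (norm_nonneg c)

lemma le_dn (hr : 0 ≤ r) (hp : 0 < p) (a : Fin m → Fin m → 𝕜) (j l : Fin m) :
    ‖a j l‖ ≤ dn r p a := by
  have h1 := le_lpn hp (fun l => ‖a j l‖) l
  have h2 := le_nr hr (fun j => lpn p (fun l => ‖a j l‖)) j
  rw [abs_of_nonneg (norm_nonneg _)] at h1
  rw [abs_of_nonneg (lpn_nonneg _ _)] at h2
  exact h1.trans h2

lemma dn_single (hr : 0 ≤ r) (hp : 0 < p) (j l : Fin m) :
    dn r p (fun j' l' => if j' = j ∧ l' = l then (1 : 𝕜) else 0) = 1 := by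
  rw [← nr_single (m := m) hr j, dn]
  congr 1
  funext j'
  by_cases h : j' = j
  · simp only [h, true_and, if_true]
    have := lpn_single hp l (zero_le_one (α := ℝ))
    rw [← this]
    congr 1
    funext l'
    split_ifs <;> simp
  · simp only [h, false_and, if_false, norm_zero]
    simp only [lpn, abs_zero, Real.zero_rpow hp.ne', Finset.sum_const_zero]
    rw [Real.zero_rpow (by positivity)]

end dn

lemma exists_le_av {A : Type*} [Fintype A] [Nonempty A] (f : A → ℝ) : ∃ a, f a ≤ av f := by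
  have h : ∑ a, f a ≤ ∑ _a : A, av f := by
    rw [Finset.sum_const, Finset.card_univ, nsmul_eq_mul, av, ← mul_assoc, mul_inv_cancel₀, one_mul]
    exact_mod_cast Fintype.card_ne_zero
  obtain ⟨a, _, ha⟩ := Finset.exists_le_of_sum_le Finset.univ_nonempty h
  exact ⟨a, ha⟩

theorem finc (𝕜 : Type*) [RCLike 𝕜] (X : Type*) [NormedAddCommGroup X] [NormedSpace 𝕜 X]
    (h1 : JointStatement 𝕜 X) (_h2 : UncStatement 𝕜 X) (_h3 : MargStatement) :
    FincStatement 𝕜 X := by
  intro p m C R hp1 hp2 hm hC hR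
  classical
  have hp0 : 0 < p := by linarith
  have hmR : (0 : ℝ) < m := by exact_mod_cast hm
  have hC0 : 0 < C := by linarith
  obtain ⟨Cm, hCm, hJ⟩ := h1 p hp1 hp2 m hm
  -- the net
  set θ : ℝ := 1 / (1920 * C ^ 2 * m ^ 2) with hθ
  have hθ0 : 0 < θ := by positivity
  obtain ⟨t, ht1, ht2, ht3⟩ := (isCompact_closedBall (0 : Fin m → Fin m → 𝕜) 1).finite_cover_balls
    hθ0
  set E : Fin m × Fin m → Fin m → Fin m → 𝕜 :=
    fun z j l => if j = z.1 ∧ l = z.2 then 1 else 0 with hE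
  set Nt : Finset (Fin m → Fin m → 𝕜) := ht2.toFinset ∪ Finset.univ.image E with hNt
  have hE1 : ∀ z, E z ∈ Metric.closedBall (0 : Fin m → Fin m → 𝕜) 1 := by
    intro z
    rw [mem_closedBall_zero_iff, pi_norm_le_iff_of_nonneg zero_le_one]
    intro j
    rw [pi_norm_le_iff_of_nonneg zero_le_one]
    intro l
    simp only [hE]
    split_ifs <;> simp
  have hNt1 : ∀ a ∈ Nt, ∀ j l, ‖a j l‖ ≤ 1 := by
    intro a ha j l
    have h : a ∈ Metric.closedBall (0 : Fin m → Fin m → 𝕜) 1 := by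
      rw [hNt, Finset.mem_union] at ha
      rcases ha with ha | ha
      · exact ht1 (by simpa using ha)
      · obtain ⟨z, _, rfl⟩ := Finset.mem_image.1 ha
        exact hE1 z
    rw [mem_closedBall_zero_iff] at h
    exact (norm_le_pi_norm (a j) l).trans ((norm_le_pi_norm a j).trans h)
  set Nn : ℝ := (Nt.card : ℝ) with hNn
  have hNn0 : 0 ≤ Nn := Nat.cast_nonneg _
  refine ⟨1 / (2 * C * Cm * m * R), 1 / (96 * C * m * R * (Nn + 1)), by positivity, by positivity,
    ?_⟩
  intro I Ω _ _ _ _ U M r n hG hr0 hr1 hrows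
  obtain ⟨s0, W, π, A, hA, hW0, hWR, hrow⟩ := hrows
  set η0 : ℝ := 1 / (2 * C * Cm * m * R) with hη0
  have hη0pos : 0 < η0 := by positivity
  -- the vectors
  set vv : (Fin m → Fin m → 𝕜) → Fin m × Fin s0 → Fin m → 𝕜 :=
    fun a z l => a z.1 l * ((W z.2 : ℝ) : 𝕜) with hvv
  set NUa : (Fin m → Fin m → 𝕜) → ℝ := fun a =>
    NU U (fun z : (Fin m × Fin s0) × Fin m => π z.1) (fun z => vv a z.1 z.2) 0 with hNUa
  have hlp : ∀ a z, lpn p (fun l => ‖vv a z l‖) = lpn p (fun l => ‖a z.1 l‖) * W z.2 := by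
    intro a z
    simp only [hvv, norm_mul, RCLike.norm_ofReal, abs_of_nonneg (hW0 z.2)]
    rw [mul_comm (lpn p _) (W z.2), ← lpn_smul hp0 _ (hW0 z.2)]
    congr 1
    funext l
    ring
  have hsumW : ∀ a : Fin m → Fin m → 𝕜,
      ∑ z : Fin m × Fin s0, lpn p (fun l => ‖a z.1 l‖) * W z.2 ≤ m * (R * A) * dn r p a := by
    intro a
    rw [Fintype.sum_prod_type]
    simp only [← Finset.mul_sum, ← Finset.sum_mul]
    have e1 : ∑ j, lpn p (fun l => ‖a j l‖) ≤ m * dn r p a := by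
      calc ∑ j, lpn p (fun l => ‖a j l‖) ≤ ∑ _j : Fin m, dn r p a := by
            apply Finset.sum_le_sum
            intro j _
            have := le_nr hr0 (fun j => lpn p (fun l => ‖a j l‖)) j
            rwa [abs_of_nonneg (lpn_nonneg _ _)] at this
        _ = m * dn r p a := by simp
    have e2 : 0 ≤ ∑ s, W s := Finset.sum_nonneg fun s _ => hW0 s
    calc (∑ j, lpn p (fun l => ‖a j l‖)) * ∑ s, W s ≤ (m * dn r p a) * (R * A) := by
          apply mul_le_mul e1 hWR e2
          have := dn_nonneg (r := r) (p := p) a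
          positivity
      _ = m * (R * A) * dn r p a := by ring
  have hη1 : Cm * η0 * (m * (R * A)) = A / (2 * C) := by
    rw [hη0]
    field_simp
  have hUp : ∀ a, NUa a ≤ 9 * C * A * dn r p a := by
    intro a
    have j1 := (hJ I Ω (Fin m × Fin s0) U M η0 _ n hη0pos.le hG π (vv a)).1
    simp only [hlp] at j1
    have j2 := (hrow (fun j => lpn p (fun l => ‖a j l‖)) (fun j => lpn_nonneg _ _)).2
    have j3 := hsumW a
    have j4 : Cm * η0 * ∑ z : Fin m × Fin s0, lpn p (fun l => ‖a z.1 l‖) * W z.2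
        ≤ A / (2 * C) * dn r p a := by
      rw [← hη1, mul_assoc (Cm * η0)]
      exact mul_le_mul_of_nonneg_left j3 (by positivity)
    have j5 : A / (2 * C) ≤ C * A := by
      rw [div_le_iff₀ (by positivity)]
      nlinarith [mul_le_mul hC hC zero_le_one hC0.le]
    have j6 : A / (2 * C) * dn r p a ≤ C * A * dn r p a :=
      mul_le_mul_of_nonneg_right j5 (dn_nonneg a)
    have j7 : NR 𝕜 U π (fun js => lpn p (fun l => ‖a js.1 l‖) * W js.2) 0
        ≤ C * (dn r p a * A) := j2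
    show NU U (fun z : (Fin m × Fin s0) × Fin m => π z.1) (fun z => vv a z.1 z.2) 0 ≤ _
    linarith
  have hLo : ∀ a, dn r p a * A ≤ 16 * C * NUa a := by
    intro a
    have j1 := (hJ I Ω (Fin m × Fin s0) U M η0 _ n hη0pos.le hG π (vv a)).2
    simp only [hlp] at j1
    have j2 := (hrow (fun j => lpn p (fun l => ‖a j l‖)) (fun j => lpn_nonneg _ _)).1
    have j3 := hsumW a
    have j4 : Cm * η0 * ∑ z : Fin m × Fin s0, lpn p (fun l => ‖a z.1 l‖) * W z.2
        ≤ A / (2 * C) * dn r p a := by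
      rw [← hη1, mul_assoc (Cm * η0)]
      exact mul_le_mul_of_nonneg_left j3 (by positivity)
    have j5 : NR 𝕜 U π (fun s => lpn p (fun l => ‖a s.1 l‖) * W s.2) 0
        ≤ 8 * NUa a + A / (2 * C) * dn r p a := j1.trans (by
          show 8 * NUa a + _ ≤ _
          linarith)
    have j6 : dn r p a * A ≤ C * NR 𝕜 U π (fun js => lpn p (fun l => ‖a js.1 l‖) * W js.2) 0 := j2
    have j7 : C * (A / (2 * C) * dn r p a) = dn r p a * A / 2 := by
      field_simp
    have j8 := mul_le_mul_of_nonneg_left j5 hC0.le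
    rw [mul_add, j7] at j8
    linarith
  -- the operator
  set tt : ((Fin m × Fin s0) × Fin m → Ω) → Fin m → Fin m → X := fun κ j l =>
    ∑ s, ((W s : ℝ) : 𝕜) • U (π (j, s)) (κ ((j, s), l)) with htt
  set T : ((Fin m × Fin s0) × Fin m → Ω) → (Fin m → Fin m → 𝕜) → X := fun κ a =>
    ∑ j, ∑ l, a j l • tt κ j l with hT
  have hTs : ∀ κ a, ∑ z : (Fin m × Fin s0) × Fin m, vv a z.1 z.2 • U (π z.1) (κ z) = T κ a := by
    intro κ a
    simp only [hT, htt, hvv]
    rw [Fintype.sum_prod_type, Fintype.sum_prod_type]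
    apply Finset.sum_congr rfl
    intro j _
    rw [Finset.sum_comm]
    apply Finset.sum_congr rfl
    intro l _
    rw [Finset.smul_sum]
    apply Finset.sum_congr rfl
    intro s _
    rw [smul_smul]
  have hNUT : ∀ a, NUa a = av (fun κ => ‖T κ a‖) := by
    intro a
    simp only [hNUa, NU, add_zero, hTs]
  have hTE : ∀ κ j l, T κ (E (j, l)) = tt κ j l := by
    intro κ j l
    simp only [hT, hE]
    rw [Finset.sum_eq_single j, Finset.sum_eq_single l]
    · simp
    · intro l' _ hl'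
      simp [hl']
    · intro h; exact absurd (Finset.mem_univ _) h
    · intro j' _ hj'
      simp [hj']
    · intro h; exact absurd (Finset.mem_univ _) h
  have hTd : ∀ κ (a b : Fin m → Fin m → 𝕜) (δ B : ℝ), (∀ j l, ‖a j l - b j l‖ ≤ δ) → 0 ≤ δ →
      ‖T κ a - T κ b‖ ≤ δ * ∑ j, ∑ l, ‖tt κ j l‖ := by
    intro κ a b δ B hab hδ
    have e1 : T κ a - T κ b = ∑ j, ∑ l, (a j l - b j l) • tt κ j l := by
      simp only [hT, sub_smul, Finset.sum_sub_distrib]
    rw [e1, Finset.mul_sum]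
    refine (norm_sum_le _ _).trans (Finset.sum_le_sum fun j _ => ?_)
    rw [Finset.mul_sum]
    refine (norm_sum_le _ _).trans (Finset.sum_le_sum fun l _ => ?_)
    rw [norm_smul]
    exact mul_le_mul_of_nonneg_right (hab j l) (norm_nonneg _)
  -- one good sample
  set dev : ((Fin m × Fin s0) × Fin m → Ω) → (Fin m → Fin m → 𝕜) → ℝ := fun κ a =>
    ‖T κ a‖ - NUa a with hdev
  have hconc : ∀ a ∈ Nt, av (fun κ => dev κ a ^ 2)
      ≤ (1 / (96 * C * m * R * (Nn + 1))) ^ 2 * (m ^ 2 * (R * A) ^ 2) := by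
    intro a ha
    have c1 := hG.conc ((Fin m × Fin s0) × Fin m) (fun z => π z.1) (fun z => vv a z.1 z.2)
    simp only [hTs] at c1
    refine c1.trans (mul_le_mul_of_nonneg_left ?_ (by positivity))
    have c2 : ∀ z : (Fin m × Fin s0) × Fin m, ‖vv a z.1 z.2‖ ^ 2 ≤ W z.1.2 * (R * A) := by
      intro z
      have d1 : ‖vv a z.1 z.2‖ ≤ W z.1.2 := by
        simp only [hvv, norm_mul, RCLike.norm_ofReal, abs_of_nonneg (hW0 z.1.2)]
        exact mul_le_of_le_one_left (hW0 _) (hNt1 a ha _ _)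
      have d2 : W z.1.2 ≤ R * A :=
        (Finset.single_le_sum (f := W) (fun s _ => hW0 s) (Finset.mem_univ _)).trans hWR
      calc ‖vv a z.1 z.2‖ ^ 2 ≤ W z.1.2 ^ 2 := by gcongr
        _ = W z.1.2 * W z.1.2 := sq _
        _ ≤ W z.1.2 * (R * A) := mul_le_mul_of_nonneg_left d2 (hW0 _)
    calc ∑ z : (Fin m × Fin s0) × Fin m, ‖vv a z.1 z.2‖ ^ 2
        ≤ ∑ z : (Fin m × Fin s0) × Fin m, W z.1.2 * (R * A) := Finset.sum_le_sum fun z _ => c2 z
      _ = m ^ 2 * ((∑ s, W s) * (R * A)) := by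
          rw [Fintype.sum_prod_type, Fintype.sum_prod_type]
          simp only [Finset.sum_const, Finset.card_univ, Fintype.card_fin, nsmul_eq_mul]
          rw [← Finset.mul_sum, ← Finset.sum_mul]
          ring
      _ ≤ m ^ 2 * (R * A) ^ 2 := by
          rw [sq (R * A)]
          apply mul_le_mul_of_nonneg_left _ (by positivity)
          exact mul_le_mul_of_nonneg_right hWR (by positivity)
  obtain ⟨κ, hκ⟩ := exists_le_av (fun κ => ∑ a ∈ Nt, dev κ a ^ 2)
  have hdev1 : ∀ a ∈ Nt, |‖T κ a‖ - NUa a| ≤ A / (96 * C) := by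
    intro a ha
    apply abs_le_of_sq_le_sq _ (by positivity)
    have d1 : dev κ a ^ 2 ≤ ∑ a ∈ Nt, dev κ a ^ 2 :=
      Finset.single_le_sum (f := fun a => dev κ a ^ 2) (fun a _ => sq_nonneg _) ha
    have d2 : av (fun κ => ∑ a ∈ Nt, dev κ a ^ 2)
        ≤ Nn * ((1 / (96 * C * m * R * (Nn + 1))) ^ 2 * (m ^ 2 * (R * A) ^ 2)) := by
      rw [av_sum]
      calc ∑ a ∈ Nt, av (fun κ => dev κ a ^ 2)
          ≤ ∑ _a ∈ Nt, (1 / (96 * C * m * R * (Nn + 1))) ^ 2 * (m ^ 2 * (R * A) ^ 2) :=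
            Finset.sum_le_sum hconc
        _ = _ := by rw [Finset.sum_const, nsmul_eq_mul]
    have d3 : Nn * ((1 / (96 * C * m * R * (Nn + 1))) ^ 2 * (m ^ 2 * (R * A) ^ 2))
        = Nn / (Nn + 1) ^ 2 * (A / (96 * C)) ^ 2 := by
      have : Nn + 1 ≠ 0 := by positivity
      field_simp
    have d4 : Nn / (Nn + 1) ^ 2 ≤ 1 := by
      rw [div_le_one (by positivity)]
      nlinarith
    have d5 : Nn / (Nn + 1) ^ 2 * (A / (96 * C)) ^ 2 ≤ 1 * (A / (96 * C)) ^ 2 :=
      mul_le_mul_of_nonneg_right d4 (by positivity)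
    show dev κ a ^ 2 ≤ _
    linarith
  have hEmem : ∀ j l, E (j, l) ∈ Nt := fun j l => by
    rw [hNt]
    exact Finset.mem_union_right _ (Finset.mem_image_of_mem _ (Finset.mem_univ _))
  have hdnE : ∀ j l, dn r p (E (j, l)) = 1 := fun j l => dn_single hr0 hp0 j l
  have hNUE : ∀ j l, av (fun κ => ‖tt κ j l‖) ≤ 9 * C * A := by
    intro j l
    have h := hUp (E (j, l))
    rw [hNUT, hdnE, mul_one] at h
    simpa only [hTE] using h
  have hsmall : A / (96 * C) ≤ C * A := by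
    rw [div_le_iff₀ (by positivity)]
    nlinarith [mul_le_mul hC hC zero_le_one hC0.le]
  have httκ : ∀ j l, ‖tt κ j l‖ ≤ 10 * C * A := by
    intro j l
    have h := (abs_le.1 (hdev1 _ (hEmem j l))).2
    rw [hTE] at h
    have h' := hUp (E (j, l))
    rw [hdnE, mul_one] at h'
    linarith
  have hsum1 : ∑ j, ∑ l, ‖tt κ j l‖ ≤ m ^ 2 * (10 * C * A) := by
    calc ∑ j, ∑ l, ‖tt κ j l‖ ≤ ∑ _j : Fin m, ∑ _l : Fin m, 10 * C * A :=
          Finset.sum_le_sum fun j _ => Finset.sum_le_sum fun l _ => httκ j l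
      _ = m ^ 2 * (10 * C * A) := by simp; ring
  have hsum2 : av (fun κ => ∑ j, ∑ l, ‖tt κ j l‖) ≤ m ^ 2 * (9 * C * A) := by
    rw [av_sum]
    simp only [av_sum]
    calc ∑ j, ∑ l, av (fun κ => ‖tt κ j l‖) ≤ ∑ _j : Fin m, ∑ _l : Fin m, 9 * C * A :=
          Finset.sum_le_sum fun j _ => Finset.sum_le_sum fun l _ => hNUE j l
      _ = m ^ 2 * (9 * C * A) := by simp; ring
  -- the estimate on the unit sphere
  have hsph : ∀ b : Fin m → Fin m → 𝕜, dn r p b = 1 → A / (32 * C) ≤ ‖T κ b‖ ∧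
      ‖T κ b‖ ≤ 10 * C * A := by
    intro b hb
    have hb1 : b ∈ Metric.closedBall (0 : Fin m → Fin m → 𝕜) 1 := by
      rw [mem_closedBall_zero_iff, pi_norm_le_iff_of_nonneg zero_le_one]
      intro j
      rw [pi_norm_le_iff_of_nonneg zero_le_one]
      intro l
      rw [← hb]
      exact le_dn hr0 hp0 b j l
    obtain ⟨a, ha, hab⟩ := Set.mem_iUnion₂.1 (ht3 hb1)
    have haN : a ∈ Nt := by
      rw [hNt]
      exact Finset.mem_union_left _ (by simpa using ha)
    have hd : ∀ j l, ‖b j l - a j l‖ ≤ θ := by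
      intro j l
      have h1 := norm_le_pi_norm ((b - a) j) l
      have h2 := norm_le_pi_norm (b - a) j
      rw [Metric.mem_ball, dist_eq_norm] at hab
      exact h1.trans (h2.trans hab.le)
    have f1 := hTd κ b a θ 0 hd hθ0.le
    have f2 : |‖T κ b‖ - ‖T κ a‖| ≤ θ * (m ^ 2 * (10 * C * A)) :=
      (abs_norm_sub_norm_le _ _).trans (f1.trans (mul_le_mul_of_nonneg_left hsum1 hθ0.le))
    have f3 : |NUa b - NUa a| ≤ θ * (m ^ 2 * (9 * C * A)) := by
      rw [hNUT, hNUT]
      have g1 : ∀ κ, |‖T κ b‖ - ‖T κ a‖| ≤ θ * ∑ j, ∑ l, ‖tt κ j l‖ := fun κ =>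
        (abs_norm_sub_norm_le _ _).trans (hTd κ b a θ 0 hd hθ0.le)
      have g2 : av (fun κ => θ * ∑ j, ∑ l, ‖tt κ j l‖) ≤ θ * (m ^ 2 * (9 * C * A)) := by
        rw [av_const_mul]
        exact mul_le_mul_of_nonneg_left hsum2 hθ0.le
      rw [← av_sub, abs_le]
      constructor
      · have g3 : av (fun κ => -(θ * ∑ j, ∑ l, ‖tt κ j l‖)) ≤ av (fun κ => ‖T κ b‖ - ‖T κ a‖) :=
          av_mono fun κ => (abs_le.1 (g1 κ)).1
        have g4 : av (fun κ => -(θ * ∑ j, ∑ l, ‖tt κ j l‖))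
            = -av (fun κ => θ * ∑ j, ∑ l, ‖tt κ j l‖) := by
          have := av_const_mul (-1) (fun κ : (Fin m × Fin s0) × Fin m → Ω =>
            θ * ∑ j, ∑ l, ‖tt κ j l‖)
          simpa using this
        linarith
      · have g3 : av (fun κ => ‖T κ b‖ - ‖T κ a‖) ≤ av (fun κ => θ * ∑ j, ∑ l, ‖tt κ j l‖) :=
          av_mono fun κ => (abs_le.1 (g1 κ)).2
        linarith
    have f4 := hdev1 a haN
    have e1 : θ * (m ^ 2 * (10 * C * A)) + θ * (m ^ 2 * (9 * C * A)) ≤ A / (96 * C) := by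
      rw [hθ, ← mul_add, ← mul_add]
      rw [show 1 / (1920 * C ^ 2 * (m : ℝ) ^ 2) * ((m : ℝ) ^ 2 * (10 * C * A + 9 * C * A))
        = 19 * A / (1920 * C) by field_simp; ring]
      rw [div_le_div_iff₀ (by positivity) (by positivity)]
      nlinarith [mul_pos hA hC0]
    have f5 := hLo b
    have f6 := hUp b
    rw [hb, one_mul] at f5
    rw [hb, mul_one] at f6
    have a2 := abs_le.1 f2
    have a3 := abs_le.1 f3
    have a4 := abs_le.1 f4
    have e2 : A / (16 * C) ≤ NUa b := by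
      rw [div_le_iff₀ (by positivity)]
      linarith
    have e3 : A / (16 * C) = 6 * (A / (96 * C)) := by field_simp; norm_num
    have e4 : A / (32 * C) = 3 * (A / (96 * C)) := by field_simp; norm_num
    have e5 : 0 ≤ θ * (m ^ 2 * (9 * C * A)) := by positivity
    have e6 : 0 ≤ A / (96 * C) := by positivity
    have e7 : A / (96 * C) ≤ C * A / 96 := by
      rw [div_le_div_iff₀ (by positivity) (by positivity)]
      nlinarith [mul_le_mul hC hC zero_le_one hC0.le]
    constructor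
    · linarith [a2.1, a3.1, a4.1]
    · have : 0 ≤ C * A := by positivity
      linarith [a2.2, a3.2, a4.2, a3.1]
  -- the vectors
  refine ⟨fun j l => (((32 * C / A : ℝ)) : 𝕜) • tt κ j l, ?_⟩
  intro a
  have hsmul : ∑ j, ∑ l, a j l • (((32 * C / A : ℝ)) : 𝕜) • tt κ j l
      = (((32 * C / A : ℝ)) : 𝕜) • T κ a := by
    simp only [hT, Finset.smul_sum]
    apply Finset.sum_congr rfl
    intro j _
    apply Finset.sum_congr rfl
    intro l _
    rw [smul_comm]
  rw [hsmul, norm_smul, RCLike.norm_ofReal, abs_of_nonneg (by positivity)]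
  show dn r p a ≤ _ ∧ _ ≤ 600 * C ^ 2 * dn r p a
  rcases (dn_nonneg (r := r) (p := p) a).eq_or_lt with h0 | h0
  · have ha0 : T κ a = 0 := by
      simp only [hT]
      apply Finset.sum_eq_zero
      intro j _
      apply Finset.sum_eq_zero
      intro l _
      have h := le_dn hr0 hp0 a j l
      rw [← h0] at h
      rw [norm_le_zero_iff.1 h, zero_smul]
    rw [ha0, norm_zero, mul_zero, ← h0, mul_zero]
    exact ⟨le_rfl, le_rfl⟩
  · set b : Fin m → Fin m → 𝕜 := fun j l => (((dn r p a)⁻¹ : ℝ) : 𝕜) * a j l with hb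
    have hb1 : dn r p b = 1 := by
      rw [hb, dn_smul hr0 hp0, RCLike.norm_ofReal, abs_of_pos (by positivity)]
      exact inv_mul_cancel₀ h0.ne'
    have hTb : T κ b = (((dn r p a)⁻¹ : ℝ) : 𝕜) • T κ a := by
      simp only [hT, hb, Finset.smul_sum, mul_smul]
    obtain ⟨g1, g2⟩ := hsph b hb1
    rw [hTb, norm_smul, RCLike.norm_ofReal, abs_of_pos (by positivity)] at g1 g2
    rw [inv_mul_eq_div, le_div_iff₀ h0] at g1
    rw [inv_mul_eq_div, div_le_iff₀ h0] at g2
    constructor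
    · have : dn r p a = 32 * C / A * (A / (32 * C) * dn r p a) := by
        field_simp
      calc dn r p a = 32 * C / A * (A / (32 * C) * dn r p a) := this
        _ ≤ _ := mul_le_mul_of_nonneg_left g1 (by positivity)
    · calc 32 * C / A * ‖T κ a‖ ≤ 32 * C / A * (10 * C * A * dn r p a) :=
            mul_le_mul_of_nonneg_left g2 (by positivity)
        _ = 320 * C ^ 2 * dn r p a := by field_simp; ring
        _ ≤ 600 * C ^ 2 * dn r p a := by
            have : 0 ≤ C ^ 2 * dn r p a := by positivity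
            nlinarith

end Pool.Agent.Lib.MP_cdd7b4_an.MX.H96
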