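import Pool.Agent.Lib.MP_cdd7b4_an.MX.H96.Phi

/-!
Module JOINT (helper96): the columns of the rows behave like `ℓ_p`.
-/

set_option autoImplicit false

namespace Pool.Agent.Lib.MP_cdd7b4_an.MX.H96

open Pool.Agent.Lib.MP_cdd7b4_an.H80 (av av_add av_sub av_const_mul av_const av_mono av_nonneg
  av_equiv av_inv)
open scoped BigOperators

section rep

variable {𝕜 : Type*} [RCLike 𝕜] {X : Type*} [NormedAddCommGroup X] [NormedSpace 𝕜 X]
  {I Ω : Type} [Fintype I] [Fintype Ω] [Nonempty Ω] {U : I → Ω → X} {p M η σ : ℝ} {n : ℕ}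

lemma mphi_double (hG : Good 𝕜 U p M η σ n) (i : I) {c : ℝ} (hc : 0 ≤ c) (y : X) :
    |MPhi 𝕜 U (Multiset.replicate 1 (i, (2 : ℝ) ^ (1 / p) * c)) y
      - MPhi 𝕜 U (Multiset.replicate 2 (i, c)) y| ≤ η * c := by
  have h := hG.eig i c hc y
  have e1 : MPhi 𝕜 U (Multiset.replicate 1 (i, (2 : ℝ) ^ (1 / p) * c)) y
      = av (fun κ => ‖((2 ^ (1 / p) * c : ℝ) : 𝕜) • U i κ + y‖) := by
    rw [Multiset.replicate_one, ← Multiset.cons_zero, mphi_cons]
    simp only [mphi_zero]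
  have e2 : MPhi 𝕜 U (Multiset.replicate 2 (i, c)) y
      = av (fun κ : Ω × Ω => ‖((c : ℝ) : 𝕜) • (U i κ.1 + U i κ.2) + y‖) := by
    rw [show (2 : ℕ) = 1 + 1 from rfl, Multiset.replicate_succ, Multiset.replicate_one,
      ← Multiset.cons_zero, mphi_cons]
    simp only [mphi_cons, mphi_zero]
    rw [av_prod_type (fun κ κ' => ‖((c : ℝ) : 𝕜) • (U i κ + U i κ') + y‖)]
    congr 1
    funext κ
    congr 1
    funext κ'
    congr 1
    rw [smul_add]
    abel
  rw [e1, e2, abs_sub_comm]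
  exact h

lemma mphi_rep (hη : 0 ≤ η) (hG : Good 𝕜 U p M η σ n) (i : I) {c : ℝ} (hc : 0 ≤ c) (k : ℕ) :
    ∀ y, |MPhi 𝕜 U (Multiset.replicate k (i, (2 : ℝ) ^ (1 / p) * c)) y
      - MPhi 𝕜 U (Multiset.replicate (2 * k) (i, c)) y| ≤ k * (η * c) := by
  induction k with
  | zero => intro y; simp
  | succ k ih =>
    intro y
    have e1 : Multiset.replicate (k + 1) (i, (2 : ℝ) ^ (1 / p) * c)
        = Multiset.replicate k (i, (2 : ℝ) ^ (1 / p) * c)
          + Multiset.replicate 1 (i, (2 : ℝ) ^ (1 / p) * c) := Multiset.replicate_add k 1 _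
    have e2 : Multiset.replicate (2 * (k + 1)) (i, c)
        = Multiset.replicate (2 * k) (i, c) + Multiset.replicate 2 (i, c) :=
      Multiset.replicate_add (2 * k) 2 _
    rw [e1, e2]
    have h1 := mphi_transfer U ih (Multiset.replicate 1 (i, (2 : ℝ) ^ (1 / p) * c)) y
    have h2 := mphi_transfer U (mphi_double hG i hc) (Multiset.replicate (2 * k) (i, c)) y
    rw [add_comm (Multiset.replicate 1 _), add_comm (Multiset.replicate 2 _)] at h2
    have h3 := abs_sub_le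
      (MPhi 𝕜 U (Multiset.replicate k (i, (2 : ℝ) ^ (1 / p) * c)
        + Multiset.replicate 1 (i, (2 : ℝ) ^ (1 / p) * c)) y)
      (MPhi 𝕜 U (Multiset.replicate (2 * k) (i, c)
        + Multiset.replicate 1 (i, (2 : ℝ) ^ (1 / p) * c)) y)
      (MPhi 𝕜 U (Multiset.replicate (2 * k) (i, c) + Multiset.replicate 2 (i, c)) y)
    push_cast
    linarith

/-- One vector with coefficient `c` and `2 ^ j` vectors with coefficient `2 ^ (-j / p) c`. -/
lemma mphi_pow (hη : 0 ≤ η) (hp : 0 < p) (hG : Good 𝕜 U p M η σ n) (i : I) {c : ℝ} (hc : 0 ≤ c)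
    (j : ℕ) :
    ∀ y, |MPhi 𝕜 U {(i, c)} y
      - MPhi 𝕜 U (Multiset.replicate (2 ^ j) (i, c * (2 : ℝ) ^ (-(1 / p * j)))) y|
        ≤ 2 ^ j * (η * c) := by
  induction j with
  | zero =>
    intro y
    have e : c * (2 : ℝ) ^ (-(1 / p * ((0 : ℕ) : ℝ))) = c := by simp
    rw [e, pow_zero, Multiset.replicate_one, sub_self, abs_zero]
    positivity
  | succ j ih =>
    intro y
    have hc' : 0 ≤ c * (2 : ℝ) ^ (-(1 / p * ((j + 1 : ℕ) : ℝ))) := by positivity
    have e1 : (2 : ℝ) ^ (1 / p) * (c * (2 : ℝ) ^ (-(1 / p * ((j + 1 : ℕ) : ℝ))))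
        = c * (2 : ℝ) ^ (-(1 / p * j)) := by
      rw [← mul_assoc, mul_comm _ c, mul_assoc, ← Real.rpow_add (by norm_num)]
      congr 2
      push_cast
      ring
    have h1 := ih y
    have h2 := mphi_rep hη hG i hc' (2 ^ j) y
    rw [e1, ← pow_succ'] at h2
    have h3 : c * (2 : ℝ) ^ (-(1 / p * ((j + 1 : ℕ) : ℝ))) ≤ c := by
      apply mul_le_of_le_one_right hc
      apply Real.rpow_le_one_of_one_le_of_nonpos (by norm_num)
      have : 0 ≤ 1 / p * ((j + 1 : ℕ) : ℝ) := by positivity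
      linarith
    have h4 : ((2 ^ j : ℕ) : ℝ) * (η * (c * (2 : ℝ) ^ (-(1 / p * ((j + 1 : ℕ) : ℝ)))))
        ≤ 2 ^ j * (η * c) := by
      rw [Nat.cast_pow, Nat.cast_ofNat]
      exact mul_le_mul_of_nonneg_left (mul_le_mul_of_nonneg_left h3 hη) (by positivity)
    have h5 := abs_sub_le (MPhi 𝕜 U {(i, c)} y)
      (MPhi 𝕜 U (Multiset.replicate (2 ^ j) (i, c * (2 : ℝ) ^ (-(1 / p * j)))) y)
      (MPhi 𝕜 U (Multiset.replicate (2 ^ (j + 1))
        (i, c * (2 : ℝ) ^ (-(1 / p * ((j + 1 : ℕ) : ℝ))))) y)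
    rw [pow_succ (2 : ℝ) j]
    linarith

/-- The version with the exponents of ROUND. -/
lemma mphi_round (hη : 0 ≤ η) (hp : 0 < p) (hG : Good 𝕜 U p M η σ n) (i : I) {c : ℝ} (hc : 0 ≤ c)
    {κ q : ℕ} (hκ : κ ≤ q) (y : X) :
    |MPhi 𝕜 U {(i, c * (2 : ℝ) ^ (-(1 / p * κ)))} y
      - MPhi 𝕜 U (Multiset.replicate (2 ^ (q - κ)) (i, c * (2 : ℝ) ^ (-(1 / p * q)))) y|
        ≤ 2 ^ q * (η * c) := by
  have h1 := mphi_pow hη hp hG i (c := c * (2 : ℝ) ^ (-(1 / p * κ))) (by positivity) (q - κ) y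
  have e1 : c * (2 : ℝ) ^ (-(1 / p * κ)) * (2 : ℝ) ^ (-(1 / p * ((q - κ : ℕ) : ℝ)))
      = c * (2 : ℝ) ^ (-(1 / p * q)) := by
    rw [mul_assoc, ← Real.rpow_add (by norm_num), Nat.cast_sub hκ]
    congr 2
    ring
  rw [e1] at h1
  refine h1.trans ?_
  have h2 : (2 : ℝ) ^ (-(1 / p * (κ : ℝ))) ≤ 1 := by
    apply Real.rpow_le_one_of_one_le_of_nonpos (by norm_num)
    have : 0 ≤ 1 / p * (κ : ℝ) := by positivity
    linarith
  have h3 : (2 : ℝ) ^ (q - κ) ≤ 2 ^ q := pow_le_pow_right₀ (by norm_num) (Nat.sub_le _ _)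
  have h4 : c * (2 : ℝ) ^ (-(1 / p * κ)) ≤ c := mul_le_of_le_one_right hc h2
  have h5 : 0 ≤ c * (2 : ℝ) ^ (-(1 / p * κ)) := by positivity
  gcongr

end rep

lemma nsmul_replicate {α : Type*} (k n : ℕ) (a : α) :
    k • Multiset.replicate n a = Multiset.replicate (k * n) a := by
  rw [Multiset.nsmul_replicate]

/-- Sums of constant multisets. -/
lemma sum_replicate {α T : Type*} [DecidableEq T] (s : Finset T) (f : T → ℕ) (a : α) :
    ∑ t ∈ s, Multiset.replicate (f t) a = Multiset.replicate (∑ t ∈ s, f t) a := by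
  induction s using Finset.induction_on with
  | empty => simp
  | insert t s hts ih => rw [Finset.sum_insert hts, Finset.sum_insert hts, ih, Multiset.replicate_add]

theorem joint (𝕜 : Type*) [RCLike 𝕜] (X : Type*) [NormedAddCommGroup X] [NormedSpace 𝕜 X]
    (h1 : RoundStatement) (_h2 : MargStatement) (h3 : UncStatement 𝕜 X) : JointStatement 𝕜 X := by
  intro p hp1 hp2 m hm
  obtain ⟨q, hq2, hq⟩ := h1 m hm
  have hp0 : 0 < p := by linarith
  refine ⟨(8 + 4 * m) * 2 ^ q, by positivity, ?_⟩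
  intro I Ω S _ _ _ _ _ _ U M η σ n hη hG π v
  have hU := hG.sym
  have hpp : (1 : ℝ) / (1 / p) = p := by rw [one_div_one_div]
  set w : S → ℝ := fun s => lpn p (fun l => ‖v s l‖) with hw
  have hw0 : ∀ s, 0 ≤ w s := fun s => by
    simp only [hw, lpn]
    positivity
  set c : ℝ := (2 : ℝ) ^ (-(1 / p * q)) with hc
  have hc0 : 0 ≤ c := by positivity
  -- the multiset of `2 ^ q` copies in each row
  have hM4 : ∀ y, |MPhi 𝕜 U (∑ s, {(π s, w s)}) y
      - MPhi 𝕜 U (∑ s, Multiset.replicate (2 ^ q) (π s, w s * c)) y| ≤ ∑ s, 2 ^ q * (η * w s) := by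
    apply mphi_sum_transfer
    intro s _ y
    have h := mphi_round hη hp0 hG (π s) (hw0 s) (Nat.zero_le q) y
    have e : w s * (2 : ℝ) ^ (-(1 / p * ((0 : ℕ) : ℝ))) = w s := by simp
    rw [e, Nat.sub_zero] at h
    exact h
  have hsum : ∑ s, 2 ^ q * (η * w s) = 2 ^ q * η * ∑ s, w s := by
    rw [Finset.mul_sum]
    exact Finset.sum_congr rfl fun s _ => by ring
  have hcost : 0 ≤ 2 ^ q * η * ∑ s, w s := by
    have : 0 ≤ ∑ s, w s := Finset.sum_nonneg fun s _ => hw0 s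
    positivity
  rw [nr_eq_mphi]
  constructor
  · -- upper estimate
    choose κ hκ1 hκ2 using fun s => (hq (1 / p) (by positivity)
      (by rw [div_le_one hp0]; exact hp1) (fun l => ‖v s l‖) (fun l => norm_nonneg _)).1
    simp only [hpp] at hκ1
    have s1 : NU U (fun z : S × Fin m => π z.1) (fun z => v z.1 z.2) 0
        ≤ 2 * NR 𝕜 U (fun z : S × Fin m => π z.1)
          (fun z => w z.1 * (2 : ℝ) ^ (-(1 / p * κ z.1 z.2))) 0 := by
      apply (h3 I Ω (S × Fin m) U hU (fun z => π z.1) (fun z => v z.1 z.2)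
        (fun z => ((w z.1 * (2 : ℝ) ^ (-(1 / p * κ z.1 z.2)) : ℝ) : 𝕜))).2
      intro z
      rw [RCLike.norm_ofReal, abs_of_nonneg (by have := hw0 z.1; positivity)]
      exact (hκ1 z.1 z.2).2
    rw [nr_eq_mphi] at s1
    have s2 : ∀ y, |MPhi 𝕜 U (∑ z : S × Fin m,
          {(π z.1, w z.1 * (2 : ℝ) ^ (-(1 / p * κ z.1 z.2)))}) y
        - MPhi 𝕜 U (∑ z : S × Fin m, Multiset.replicate (2 ^ (q - κ z.1 z.2)) (π z.1, w z.1 * c)) y|
        ≤ ∑ z : S × Fin m, 2 ^ q * (η * w z.1) := by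
      apply mphi_sum_transfer
      intro z _ y
      exact mphi_round hη hp0 hG (π z.1) (hw0 z.1) (hκ1 z.1 z.2).1 y
    have s3 : ∑ z : S × Fin m, 2 ^ q * (η * w z.1) = m * (2 ^ q * η * ∑ s, w s) := by
      rw [Fintype.sum_prod_type]
      simp only [Finset.sum_const, Finset.card_univ, Fintype.card_fin, nsmul_eq_mul]
      rw [← Finset.mul_sum, hsum]
    have s4 : ∑ z : S × Fin m, Multiset.replicate (2 ^ (q - κ z.1 z.2)) (π z.1, w z.1 * c)
        ≤ 4 • ∑ s, Multiset.replicate (2 ^ q) (π s, w s * c) := by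
      rw [Fintype.sum_prod_type, Finset.smul_sum]
      apply Finset.sum_le_sum
      intro s _
      dsimp only
      rw [sum_replicate, nsmul_replicate]
      apply Multiset.replicate_mono
      have := hκ2 s
      rw [pow_add] at this
      omega
    have s5 := mphi_mono (𝕜 := 𝕜) hU s4 0
    have s6 := mphi_nsmul (𝕜 := 𝕜) U 4 (∑ s, Multiset.replicate (2 ^ q) (π s, w s * c))
    have s7 := (abs_le.1 (s2 0)).2
    have s8 := (abs_le.1 (hM4 0)).1
    rw [s3] at s7
    rw [hsum] at s8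
    push_cast at s6
    calc NU U (fun z : S × Fin m => π z.1) (fun z => v z.1 z.2) 0
        ≤ 8 * MPhi 𝕜 U (∑ s, {(π s, w s)}) 0 + (8 + 2 * m) * (2 ^ q * η * ∑ s, w s) := by
          nlinarith
      _ ≤ 8 * MPhi 𝕜 U (∑ s, {(π s, w s)}) 0 + (8 + 4 * m) * 2 ^ q * η * ∑ s, w s := by
          have : (0 : ℝ) ≤ m := Nat.cast_nonneg m
          nlinarith
  · -- lower estimate
    choose κ L hκ1 hκ2 using fun s => (hq (1 / p) (by positivity)
      (by rw [div_le_one hp0]; exact hp1) (fun l => ‖v s l‖) (fun l => norm_nonneg _)).2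
    simp only [hpp] at hκ1
    classical
    -- `M4 = 4 • M5`
    have s1 : ∑ s, Multiset.replicate (2 ^ q) (π s, w s * c)
        = 4 • ∑ s, Multiset.replicate (2 ^ (q - 2)) (π s, w s * c) := by
      rw [Finset.smul_sum]
      apply Finset.sum_congr rfl
      intro s _
      rw [nsmul_replicate]
      congr 1
      have : q = (q - 2) + 2 := by omega
      conv_lhs => rw [this, pow_add]
      ring
    have s2 := mphi_nsmul (𝕜 := 𝕜) U 4 (∑ s, Multiset.replicate (2 ^ (q - 2)) (π s, w s * c))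
    rw [← s1] at s2
    -- `M5 ≤ M6`
    have s3 : ∑ s, Multiset.replicate (2 ^ (q - 2)) (π s, w s * c)
        ≤ ∑ s, ∑ l ∈ L s, Multiset.replicate (2 ^ (q - κ s l)) (π s, w s * c) := by
      apply Finset.sum_le_sum
      intro s _
      rw [sum_replicate]
      exact Multiset.replicate_mono _ (hκ2 s)
    have s4 := mphi_mono (𝕜 := 𝕜) hU s3 0
    -- `M6` and `M7`
    have s5 : ∀ y, |MPhi 𝕜 U (∑ s, ∑ l ∈ L s, {(π s, w s * (2 : ℝ) ^ (-(1 / p * κ s l)))}) y
        - MPhi 𝕜 U (∑ s, ∑ l ∈ L s, Multiset.replicate (2 ^ (q - κ s l)) (π s, w s * c)) y|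
        ≤ ∑ s, ∑ l ∈ L s, 2 ^ q * (η * w s) := by
      apply mphi_sum_transfer
      intro s _
      apply mphi_sum_transfer
      intro l hl y
      exact mphi_round hη hp0 hG (π s) (hw0 s) (hκ1 s l hl).1 y
    have s6 : ∑ s, ∑ l ∈ L s, 2 ^ q * (η * w s) ≤ m * (2 ^ q * η * ∑ s, w s) := by
      rw [← hsum, Finset.mul_sum]
      apply Finset.sum_le_sum
      intro s _
      rw [Finset.sum_const, nsmul_eq_mul]
      apply mul_le_mul_of_nonneg_right
      · have := Finset.card_le_univ (L s)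
        rw [Fintype.card_fin] at this
        exact_mod_cast this
      · have := hw0 s
        positivity
    -- `M7 ≤ M8`
    set cf : S × Fin m → ℝ := fun z => if z.2 ∈ L z.1 then
      w z.1 * (2 : ℝ) ^ (-(1 / p * κ z.1 z.2)) else 0 with hcf
    have s7 : ∑ s, ∑ l ∈ L s, ({(π s, w s * (2 : ℝ) ^ (-(1 / p * κ s l)))} : Multiset (I × ℝ))
        ≤ ∑ z : S × Fin m, {(π z.1, cf z)} := by
      rw [Fintype.sum_prod_type]
      apply Finset.sum_le_sum
      intro s _
      calc ∑ l ∈ L s, ({(π s, w s * (2 : ℝ) ^ (-(1 / p * κ s l)))} : Multiset (I × ℝ))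
          = ∑ l ∈ L s, {(π s, cf (s, l))} := by
            apply Finset.sum_congr rfl
            intro l hl
            simp only [hcf, hl, if_true]
        _ ≤ ∑ l, {(π s, cf (s, l))} := by
            apply Finset.sum_le_sum_of_subset (Finset.subset_univ _)
    have s8 := mphi_mono (𝕜 := 𝕜) hU s7 0
    have s9 : NR 𝕜 U (fun z : S × Fin m => π z.1) cf 0
        ≤ 2 * NU U (fun z : S × Fin m => π z.1) (fun z => v z.1 z.2) 0 := by
      apply (h3 I Ω (S × Fin m) U hU (fun z => π z.1) (fun z => ((cf z : ℝ) : 𝕜))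
        (fun z => v z.1 z.2)).2
      intro z
      rw [RCLike.norm_ofReal]
      simp only [hcf]
      split_ifs with hz
      · rw [abs_of_nonneg (by have := hw0 z.1; positivity)]
        exact (hκ1 z.1 z.2 hz).2
      · rw [abs_zero]
        exact norm_nonneg _
    rw [nr_eq_mphi] at s9
    have s10 := (abs_le.1 (s5 0)).1
    have s11 := (abs_le.1 (hM4 0)).2
    rw [hsum] at s11
    push_cast at s2
    calc MPhi 𝕜 U (∑ s, {(π s, w s)}) 0
        ≤ 8 * NU U (fun z : S × Fin m => π z.1) (fun z => v z.1 z.2) 0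
          + (1 + 4 * m) * (2 ^ q * η * ∑ s, w s) := by
          nlinarith
      _ ≤ 8 * NU U (fun z : S × Fin m => π z.1) (fun z => v z.1 z.2) 0
          + (8 + 4 * m) * 2 ^ q * η * ∑ s, w s := by
          have : (0 : ℝ) ≤ m := Nat.cast_nonneg m
          nlinarith

end Pool.Agent.Lib.MP_cdd7b4_an.MX.H96
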