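import Pool.Agent.Lib.MP_cdd7b4_an.MX.Iface

/-!
Average norms indexed by multisets of (row, coefficient) (helper96).
-/

set_option autoImplicit false

namespace Pool.Agent.Lib.MP_cdd7b4_an.MX.H96

open Pool.Agent.Lib.MP_cdd7b4_an.H80 (av av_add av_sub av_const_mul av_const av_mono av_nonneg
  av_equiv av_inv)
open scoped BigOperators

section av

lemma av_prod_type {A B : Type*} [Fintype A] [Fintype B] (f : A → B → ℝ) :
    av (fun z : A × B => f z.1 z.2) = av (fun a => av (fun b => f a b)) := by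
  simp only [av, Fintype.card_prod, Fintype.sum_prod_type, ← Finset.mul_sum]
  push_cast
  rw [mul_inv]
  ring

lemma av_swap {A B : Type*} [Fintype A] [Fintype B] (f : A → B → ℝ) :
    av (fun a => av (fun b => f a b)) = av (fun b => av (fun a => f a b)) := by
  simp only [av, ← Finset.mul_sum]
  rw [Finset.sum_comm]
  ring

lemma abs_av_sub_le {A : Type*} [Fintype A] [Nonempty A] {f g : A → ℝ} {c : ℝ}
    (h : ∀ a, |f a - g a| ≤ c) : |av f - av g| ≤ c := by
  rw [← av_sub, abs_le]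
  constructor
  · have h1 : av (fun _ : A => -c) ≤ av (fun a => f a - g a) := av_mono fun a => (abs_le.1 (h a)).1
    rwa [av_const] at h1
  · have h1 : av (fun a => f a - g a) ≤ av (fun _ : A => c) := av_mono fun a => (abs_le.1 (h a)).2
    rwa [av_const] at h1

end av

section phi

variable {𝕜 : Type*} [RCLike 𝕜] {X : Type*} [NormedAddCommGroup X] [NormedSpace 𝕜 X]
  {I Ω : Type} [Fintype Ω]

/-- One more independent vector. -/
noncomputable def step (𝕜 : Type*) [RCLike 𝕜] {X : Type*} [NormedAddCommGroup X] [NormedSpace 𝕜 X]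
    {I Ω : Type} [Fintype Ω] (U : I → Ω → X) (a : I × ℝ) (g : X → ℝ) : X → ℝ :=
  fun y => av (fun κ => g (((a.2 : ℝ) : 𝕜) • U a.1 κ + y))

instance (U : I → Ω → X) : LeftCommutative (step 𝕜 U) :=
  ⟨fun a b g => by
    funext y
    simp only [step]
    rw [av_swap]
    congr 1
    funext κ
    congr 1
    funext κ'
    congr 1
    abel⟩

/-- The average norm of `y + ∑ w U_i` over the multiset of the `(i, w)`. -/
noncomputable def MPhi (𝕜 : Type*) [RCLike 𝕜] {X : Type*} [NormedAddCommGroup X]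
    [NormedSpace 𝕜 X] {I Ω : Type} [Fintype Ω] (U : I → Ω → X) (m : Multiset (I × ℝ)) : X → ℝ :=
  m.foldr (step 𝕜 U) (fun y => ‖y‖)

lemma mphi_zero (U : I → Ω → X) (y : X) : MPhi 𝕜 U 0 y = ‖y‖ := by
  simp only [MPhi, Multiset.foldr_zero]

lemma mphi_cons (U : I → Ω → X) (a : I × ℝ) (m : Multiset (I × ℝ)) (y : X) :
    MPhi 𝕜 U (a ::ₘ m) y = av (fun κ => MPhi 𝕜 U m (((a.2 : ℝ) : 𝕜) • U a.1 κ + y)) := by
  simp only [MPhi, Multiset.foldr_cons, step]

lemma mphi_transfer [Nonempty Ω] (U : I → Ω → X) {m₁ m₂ : Multiset (I × ℝ)} {c : ℝ}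
    (h : ∀ y, |MPhi 𝕜 U m₁ y - MPhi 𝕜 U m₂ y| ≤ c) (m : Multiset (I × ℝ)) :
    ∀ y, |MPhi 𝕜 U (m₁ + m) y - MPhi 𝕜 U (m₂ + m) y| ≤ c := by
  induction m using Multiset.induction_on with
  | empty => simpa using h
  | cons a m ih =>
    intro y
    rw [Multiset.add_cons, Multiset.add_cons, mphi_cons, mphi_cons]
    exact abs_av_sub_le fun κ => ih _

lemma mphi_two (U : I → Ω → X) (m : Multiset (I × ℝ)) :
    ∀ y z, 2 * MPhi 𝕜 U m y ≤ MPhi 𝕜 U m (z + y) + MPhi 𝕜 U m (-z + y) := by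
  induction m using Multiset.induction_on with
  | empty =>
    intro y z
    simp only [mphi_zero]
    have h : (2 : ℝ) * ‖y‖ = ‖(z + y) + (-z + y)‖ := by
      have e : (z + y) + (-z + y) = (2 : 𝕜) • y := by rw [two_smul]; abel
      rw [e, norm_smul, RCLike.norm_ofNat]
    rw [h]
    exact norm_add_le _ _
  | cons a m ih =>
    intro y z
    simp only [mphi_cons]
    rw [← av_const_mul, ← av_add]
    apply av_mono
    intro κ
    have := ih (((a.2 : ℝ) : 𝕜) • U a.1 κ + y) z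
    rw [show ((a.2 : ℝ) : 𝕜) • U a.1 κ + (z + y) = z + (((a.2 : ℝ) : 𝕜) • U a.1 κ + y) by abel,
      show ((a.2 : ℝ) : 𝕜) • U a.1 κ + (-z + y) = -z + (((a.2 : ℝ) : 𝕜) • U a.1 κ + y) by abel]
    exact this

/-- An additional symmetric vector increases the average norm. -/
lemma mphi_le_cons [Nonempty Ω] {U : I → Ω → X} (hU : Symm U) (a : I × ℝ) (m : Multiset (I × ℝ))
    (y : X) : MPhi 𝕜 U m y ≤ MPhi 𝕜 U (a ::ₘ m) y := by
  obtain ⟨τ, hτ, hs⟩ := hU
  rw [mphi_cons]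
  set f : Ω → ℝ := fun κ => MPhi 𝕜 U m (((a.2 : ℝ) : 𝕜) • U a.1 κ + y) with hf
  have h1 : av (fun κ => f (τ κ)) = av f := av_inv hτ f
  have h2 : av (fun _ : Ω => 2 * MPhi 𝕜 U m y) ≤ av (fun κ => f κ + f (τ κ)) := by
    apply av_mono
    intro κ
    have h3 := mphi_two (𝕜 := 𝕜) U m y (((a.2 : ℝ) : 𝕜) • U a.1 κ)
    simp only [hf, hs, smul_neg]
    exact h3
  rw [av_const, av_add, h1] at h2
  linarith

lemma mphi_le_add [Nonempty Ω] {U : I → Ω → X} (hU : Symm U) (m m' : Multiset (I × ℝ)) (y : X) :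
    MPhi 𝕜 U m y ≤ MPhi 𝕜 U (m' + m) y := by
  induction m' using Multiset.induction_on with
  | empty => simp
  | cons a m' ih =>
    rw [Multiset.cons_add]
    exact ih.trans (mphi_le_cons hU a _ y)

lemma mphi_mono [Nonempty Ω] {U : I → Ω → X} (hU : Symm U) {m m' : Multiset (I × ℝ)}
    (h : m ≤ m') (y : X) : MPhi 𝕜 U m y ≤ MPhi 𝕜 U m' y := by
  obtain ⟨m'', rfl⟩ := Multiset.le_iff_exists_add.1 h
  rw [add_comm]
  exact mphi_le_add hU m m'' y

lemma mphi_shift (U : I → Ω → X) [Nonempty Ω] (m : Multiset (I × ℝ)) :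
    ∀ y z, MPhi 𝕜 U m (y + z) ≤ ‖y‖ + MPhi 𝕜 U m z := by
  induction m using Multiset.induction_on with
  | empty =>
    intro y z
    simp only [mphi_zero]
    exact norm_add_le _ _
  | cons a m ih =>
    intro y z
    simp only [mphi_cons]
    have h1 : av (fun κ => MPhi 𝕜 U m (((a.2 : ℝ) : 𝕜) • U a.1 κ + (y + z)))
        ≤ av (fun κ => ‖y‖ + MPhi 𝕜 U m (((a.2 : ℝ) : 𝕜) • U a.1 κ + z)) := by
      apply av_mono
      intro κ
      have := ih y (((a.2 : ℝ) : 𝕜) • U a.1 κ + z)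
      rw [show ((a.2 : ℝ) : 𝕜) • U a.1 κ + (y + z) = y + (((a.2 : ℝ) : 𝕜) • U a.1 κ + z) by abel]
      exact this
    rw [av_add, av_const] at h1
    exact h1

/-- The triangle inequality. -/
lemma mphi_subadd (U : I → Ω → X) [Nonempty Ω] (m₁ m₂ : Multiset (I × ℝ)) :
    ∀ y z, MPhi 𝕜 U (m₁ + m₂) (y + z) ≤ MPhi 𝕜 U m₁ y + MPhi 𝕜 U m₂ z := by
  induction m₁ using Multiset.induction_on with
  | empty =>
    intro y z
    rw [zero_add, mphi_zero]
    exact mphi_shift U m₂ y z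
  | cons a m ih =>
    intro y z
    rw [Multiset.cons_add, mphi_cons, mphi_cons]
    have h1 : av (fun κ => MPhi 𝕜 U (m + m₂) (((a.2 : ℝ) : 𝕜) • U a.1 κ + (y + z)))
        ≤ av (fun κ => MPhi 𝕜 U m (((a.2 : ℝ) : 𝕜) • U a.1 κ + y) + MPhi 𝕜 U m₂ z) := by
      apply av_mono
      intro κ
      have := ih (((a.2 : ℝ) : 𝕜) • U a.1 κ + y) z
      rw [show ((a.2 : ℝ) : 𝕜) • U a.1 κ + (y + z) = (((a.2 : ℝ) : 𝕜) • U a.1 κ + y) + z by abel]
      exact this
    rw [av_add, av_const] at h1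
    exact h1

lemma mphi_nsmul (U : I → Ω → X) [Nonempty Ω] (n : ℕ) (m : Multiset (I × ℝ)) :
    MPhi 𝕜 U (n • m) 0 ≤ n * MPhi 𝕜 U m 0 := by
  induction n with
  | zero => simp [mphi_zero]
  | succ n ih =>
    rw [succ_nsmul, Nat.cast_succ, add_mul, one_mul]
    have := mphi_subadd (𝕜 := 𝕜) U (n • m) m 0 0
    rw [add_zero] at this
    linarith

/-- Replacing the parts of a sum one by one. -/
lemma mphi_sum_transfer [Nonempty Ω] (U : I → Ω → X) {T : Type*} [DecidableEq T] (s : Finset T)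
    (A B : T → Multiset (I × ℝ)) (c : T → ℝ)
    (h : ∀ t ∈ s, ∀ y, |MPhi 𝕜 U (A t) y - MPhi 𝕜 U (B t) y| ≤ c t) :
    ∀ y, |MPhi 𝕜 U (∑ t ∈ s, A t) y - MPhi 𝕜 U (∑ t ∈ s, B t) y| ≤ ∑ t ∈ s, c t := by
  induction s using Finset.induction_on with
  | empty => intro y; simp
  | insert t s hts ih =>
    intro y
    rw [Finset.sum_insert hts, Finset.sum_insert hts, Finset.sum_insert hts]
    have h1 := mphi_transfer U (h t (Finset.mem_insert_self _ _)) (∑ t ∈ s, A t) y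
    have h2 := mphi_transfer U (ih fun t ht => h t (Finset.mem_insert_of_mem ht)) (B t) y
    rw [add_comm (∑ t ∈ s, A t) (B t), add_comm (∑ t ∈ s, B t) (B t)] at h2
    have h3 := abs_sub_le (MPhi 𝕜 U (A t + ∑ t ∈ s, A t) y) (MPhi 𝕜 U (B t + ∑ t ∈ s, A t) y)
      (MPhi 𝕜 U (B t + ∑ t ∈ s, B t) y)
    linarith

section bridge

lemma mphi_fin (U : I → Ω → X) (n : ℕ) : ∀ (π : Fin n → I) (w : Fin n → ℝ) (y : X),
    NR 𝕜 U π w y = MPhi 𝕜 U (∑ s, {(π s, w s)}) y := by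
  induction n with
  | zero =>
    intro π w y
    simp only [NR, NU, Finset.univ_eq_empty, Finset.sum_empty, zero_add, mphi_zero]
    exact av_const _
  | succ n ih =>
    intro π w y
    rw [Fin.sum_univ_succ, Multiset.singleton_add, mphi_cons]
    simp only [← ih]
    simp only [NR, NU]
    rw [← av_prod_type (fun (κ : Ω) (κ' : Fin n → Ω) =>
      ‖∑ s, ((w s.succ : ℝ) : 𝕜) • U (π s.succ) (κ' s) + (((w 0 : ℝ) : 𝕜) • U (π 0) κ + y)‖)]
    rw [← av_equiv (Fin.consEquiv (fun _ : Fin (n + 1) => Ω))]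
    congr 1
    funext z
    rw [Fin.sum_univ_succ]
    simp only [Fin.consEquiv_apply, Fin.cons_zero, Fin.cons_succ]
    congr 1
    abel

/-- The average norm of a family as the average norm of a multiset. -/
lemma nr_eq_mphi {S : Type} [Fintype S] [DecidableEq S] (U : I → Ω → X) (π : S → I) (w : S → ℝ)
    (y : X) : NR 𝕜 U π w y = MPhi 𝕜 U (∑ s, {(π s, w s)}) y := by
  let e := (Fintype.equivFin S).symm
  rw [← Equiv.sum_comp e]
  refine Eq.trans ?_ (mphi_fin U _ (fun s => π (e s)) (fun s => w (e s)) y)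
  simp only [NR, NU]
  rw [← av_equiv (e.arrowCongr (Equiv.refl Ω))]
  congr 1
  funext κ
  rw [← Equiv.sum_comp e]
  simp [Equiv.arrowCongr]

end bridge

end phi

end Pool.Agent.Lib.MP_cdd7b4_an.MX.H96
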